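import Mathlib

set_option autoImplicit false

namespace Pool.Agent.Helper624.Gow

open Finset
open scoped Classical

abbrev Pt := ℝ × ℝ
abbrev Ed := Pt × Pt

noncomputable def sl (e : Ed) : ℝ := (e.2.2 - e.1.2) / (e.2.1 - e.1.1)
noncomputable def fe (e : Ed) (x : ℝ) : ℝ := e.1.2 + sl e * (x - e.1.1)

lemma fe_left (e : Ed) : fe e e.1.1 = e.1.2 := by unfold fe; ring

lemma fe_right {e : Ed} (h : e.1.1 < e.2.1) : fe e e.2.1 = e.2.2 := by
  unfold fe sl
  have : e.2.1 - e.1.1 ≠ 0 := by linarith
  field_simp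
  ring

lemma fe_sub (e : Ed) (x y : ℝ) : fe e x = fe e y + sl e * (x - y) := by
  unfold fe; ring

lemma crossing {e e' : Ed} {a b : ℝ} (hab : a < b) (h1 : fe e a < fe e' a) (h2 : fe e' b < fe e b) :
    ∃ x, a < x ∧ x < b ∧ fe e x = fe e' x := by
  set A := fe e' a - fe e a with hA
  set B := fe e b - fe e' b with hB
  have hA0 : 0 < A := by linarith
  have hB0 : 0 < B := by linarith
  refine ⟨a + (b - a) * (A / (A + B)), ?_, ?_, ?_⟩
  · have : 0 < (b - a) * (A / (A + B)) := by
      apply mul_pos (by linarith)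
      positivity
    linarith
  · have h3 : A / (A + B) < 1 := by
      rw [div_lt_one (by positivity)]; linarith
    have : (b - a) * (A / (A + B)) < (b - a) * 1 := by
      apply mul_lt_mul_of_pos_left h3; linarith
    linarith
  · set x := a + (b - a) * (A / (A + B)) with hx
    have e1 := fe_sub e x a
    have e2 := fe_sub e' x a
    have e3 := fe_sub e b a
    have e4 := fe_sub e' b a
    have h5 : (sl e - sl e') * (b - a) = A + B := by
      rw [hA, hB, e3, e4]; ring
    have h6 : (sl e - sl e') * (x - a) = A := by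
      have : x - a = (b - a) * (A / (A + B)) := by rw [hx]; ring
      rw [this, ← mul_assoc, h5]
      field_simp
    rw [e1, e2]
    nlinarith

structure PG (V : Finset Pt) (E : Finset Ed) : Prop where
  xinj : ∀ p ∈ V, ∀ q ∈ V, p.1 = q.1 → p = q
  e1 : ∀ e ∈ E, e.1 ∈ V
  e2 : ∀ e ∈ E, e.2 ∈ V
  lt : ∀ e ∈ E, e.1.1 < e.2.1
  nv : ∀ e ∈ E, ∀ w ∈ V, e.1.1 < w.1 → w.1 < e.2.1 → w.2 ≠ fe e w.1
  nc : ∀ e ∈ E, ∀ e' ∈ E, e ≠ e' → ∀ x, e.1.1 < x → x < e.2.1 → e'.1.1 < x → x < e'.2.1 → fe e x ≠ fe e' x

def TR (E : Finset Ed) (e : Ed) : Prop := ∀ e' ∈ E, e'.1 = e.1 → sl e' ≤ sl e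
def TL (E : Finset Ed) (e : Ed) : Prop := ∀ e' ∈ E, e'.2 = e.2 → sl e ≤ sl e'
def BW (V : Finset Pt) (E : Finset Ed) (e : Ed) (w : Pt) : Prop :=
  w ∈ V ∧ e.1.1 < w.1 ∧ w.1 < e.2.1 ∧ fe e w.1 < w.2 ∧
    ∀ e'' ∈ E, e''.1.1 < w.1 → w.1 < e''.2.1 → fe e w.1 < fe e'' w.1 → w.2 ≤ fe e'' w.1

variable {V : Finset Pt} {E : Finset Ed}

/-- no crossing from below to above -/
lemma PG.cr (h : PG V E) {e e' : Ed} (he : e ∈ E) (he' : e' ∈ E) {a b : ℝ} (hab : a < b)
    (ha : e.1.1 ≤ a) (ha' : e'.1.1 ≤ a) (hb : b ≤ e.2.1) (hb' : b ≤ e'.2.1)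
    (h1 : fe e a < fe e' a) : fe e b ≤ fe e' b := by
  by_contra hcon
  push Not at hcon
  obtain ⟨x, hx1, hx2, hx3⟩ := crossing hab h1 hcon
  have hne : e ≠ e' := by
    rintro rfl
    exact absurd h1 (lt_irrefl _)
  exact h.nc e he e' he' hne x (by linarith) (by linarith) (by linarith) (by linarith) hx3

lemma PG.cover (h : PG V E) {e : Ed} (he : e ∈ E) (hTR : ¬ TR E e) :
    TL E e ∨ ∃ w, BW V E e w := by
  unfold TR at hTR
  push Not at hTR
  obtain ⟨e0, he0, h01, h02⟩ := hTR
  -- minimal slope
  obtain ⟨e', he', hmin⟩ := exists_min_image (E.filter (fun e' => e'.1 = e.1 ∧ sl e < sl e')) sl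
    ⟨e0, mem_filter.2 ⟨he0, h01, h02⟩⟩
  rw [mem_filter] at he'
  obtain ⟨he', h11, h12⟩ := he'
  have hlt := h.lt e he
  have hlt' := h.lt e' he'
  have hu : e'.1.1 = e.1.1 := by rw [h11]
  have hfu : fe e' e.1.1 = fe e e.1.1 := by
    rw [← hu, fe_left, h11, fe_left]
  have hab : ∀ x, e.1.1 < x → fe e x < fe e' x := by
    intro x hx
    have e1 := fe_sub e x e.1.1
    have e2 := fe_sub e' x e.1.1
    rw [e1, e2, hfu]
    nlinarith
  -- the wedge
  set W := V.filter (fun w => e.1.1 < w.1 ∧ w.1 ≤ e.2.1 ∧ w.1 ≤ e'.2.1 ∧ fe e w.1 ≤ w.2 ∧ w.2 ≤ fe e' w.1) with hW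
  have hWne : W.Nonempty := by
    rcases le_total e.2.1 e'.2.1 with h3 | h3
    · refine ⟨e.2, mem_filter.2 ⟨h.e2 e he, hlt, le_rfl, h3, ?_, ?_⟩⟩
      · rw [fe_right hlt]
      · have := hab _ hlt
        rw [fe_right hlt] at this
        exact this.le
    · refine ⟨e'.2, mem_filter.2 ⟨h.e2 e' he', by linarith, h3, le_rfl, ?_, ?_⟩⟩
      · have := hab e'.2.1 (by linarith)
        rw [fe_right hlt'] at this
        exact this.le
      · rw [fe_right hlt']
  obtain ⟨w, hw, hwmin⟩ := exists_min_image W (fun w => w.1) hWne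
  rw [hW, mem_filter] at hw
  obtain ⟨hwV, hw1, hw2, hw3, hw4, hw5⟩ := hw
  by_cases hwe : w = e.2
  · left
    intro e'' he'' h2
    by_contra hcon
    push Not at hcon
    have hlt'' := h.lt e'' he''
    have hv : e''.2.1 = e.2.1 := by rw [h2]
    have hfv : fe e'' e.2.1 = fe e e.2.1 := by
      rw [fe_right hlt, ← hv, fe_right hlt'', h2]
    have hab'' : ∀ x, x < e.2.1 → fe e x < fe e'' x := by
      intro x hx
      have e1 := fe_sub e x e.2.1
      have e2 := fe_sub e'' x e.2.1
      rw [e1, e2, hfv]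
      nlinarith
    have hve' : e.2.1 ≤ e'.2.1 := by rw [← hwe]; exact hw3
    have hfe' : fe e'' e.2.1 < fe e' e.2.1 := by
      rw [hfv]; exact hab _ hlt
    rcases le_or_gt e''.1.1 e.1.1 with h3 | h3
    · -- crossing with e' on (u.1, v.1)
      have h4 : fe e' e.1.1 < fe e'' e.1.1 := by
        rw [hfu]; exact hab'' _ hlt
      have := h.cr he' he'' hlt (by linarith) h3 hve' (by linarith) h4
      linarith
    · have h4 : fe e'' e''.1.1 ≤ fe e' e''.1.1 := by
        by_contra hc
        push Not at hc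
        have := h.cr he' he'' (a := e''.1.1) (b := e.2.1) (by linarith) (by linarith) le_rfl hve' (by linarith) hc
        linarith
      have h5 : e''.1 ∈ W := by
        rw [hW, mem_filter]
        refine ⟨h.e1 e'' he'', h3, by linarith, by linarith, ?_, ?_⟩
        · have := hab'' e''.1.1 (by linarith)
          rw [fe_left e''] at this
          exact this.le
        · rw [fe_left e''] at h4
          exact h4
      have h6 := hwmin _ h5
      rw [hwe] at h6
      linarith
  · right
    have hwlt : w.1 < e.2.1 := by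
      rcases hw2.lt_or_eq with h3 | h3
      · exact h3
      · exact absurd (h.xinj w hwV e.2 (h.e2 e he) h3) hwe
    have hwn := h.nv e he w hwV hw1 hwlt
    have hwgt : fe e w.1 < w.2 := lt_of_le_of_ne hw4 (Ne.symm hwn)
    refine ⟨w, hwV, hw1, hwlt, hwgt, ?_⟩
    intro e'' he'' h3 h4 h5
    by_contra hcon
    push Not at hcon
    have h6 : fe e'' w.1 < fe e' w.1 := by linarith
    rcases lt_or_ge e.1.1 e''.1.1 with h7 | h7
    · have h8 : fe e'' e''.1.1 ≤ fe e' e''.1.1 := by
        by_contra hc
        push Not at hc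
        have := h.cr he' he'' (a := e''.1.1) (b := w.1) h3 (by linarith) le_rfl hw3 h4.le hc
        linarith
      have h9 : fe e e''.1.1 ≤ fe e'' e''.1.1 := by
        by_contra hc
        push Not at hc
        have := h.cr he'' he (a := e''.1.1) (b := w.1) h3 le_rfl h7.le h4.le hwlt.le hc
        linarith
      rw [fe_left e''] at h8 h9
      have h10 : e''.1 ∈ W := by
        rw [hW, mem_filter]
        exact ⟨h.e1 e'' he'', h7, by linarith, by linarith, h9, h8⟩
      have h11 := hwmin _ h10
      linarith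
    · rcases lt_trichotomy (fe e'' e.1.1) (fe e e.1.1) with h8 | h8 | h8
      · have := h.cr he'' he (a := e.1.1) (b := w.1) hw1 h7 le_rfl h4.le hwlt.le h8
        linarith
      · rcases h7.lt_or_eq with h9 | h9
        · have := h.nv e'' he'' e.1 (h.e1 e he) h9 (by linarith)
          apply this
          rw [h8, fe_left]
        · have h10 : e''.1 = e.1 := h.xinj _ (h.e1 e'' he'') _ (h.e1 e he) h9
          have e1 := fe_sub e w.1 e.1.1
          have e2 := fe_sub e'' w.1 e.1.1
          have e3 := fe_sub e' w.1 e.1.1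
          have h12' : sl e < sl e'' := by
            have : 0 < (sl e'' - sl e) * (w.1 - e.1.1) := by
              rw [h8] at e2
              linarith
            have h13 : 0 < w.1 - e.1.1 := by linarith
            have := (mul_pos_iff_of_pos_right h13).1 this
            linarith
          have h14 := hmin e'' (mem_filter.2 ⟨he'', h10, h12'⟩)
          have : 0 < (sl e' - sl e'') * (w.1 - e.1.1) := by
            rw [h8] at e2
            rw [hfu] at e3
            linarith
          have h13 : 0 < w.1 - e.1.1 := by linarith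
          have := (mul_pos_iff_of_pos_right h13).1 this
          linarith
      · have h9 : fe e' e.1.1 < fe e'' e.1.1 := by rw [hfu]; exact h8
        have := h.cr he' he'' (a := e.1.1) (b := w.1) hw1 (by linarith) h7 hw3 h4.le h9
        linarith

theorem PG.card_le (h : PG V E) : E.card ≤ 3 * V.card := by
  have hsub : E ⊆ E.filter (fun e => TR E e) ∪ (E.filter (fun e => TL E e) ∪ E.filter (fun e => ∃ w, BW V E e w)) := by
    intro e he
    by_cases h1 : TR E e
    · exact mem_union_left _ (mem_filter.2 ⟨he, h1⟩)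
    · apply mem_union_right
      rcases h.cover he h1 with h2 | h2
      · exact mem_union_left _ (mem_filter.2 ⟨he, h2⟩)
      · exact mem_union_right _ (mem_filter.2 ⟨he, h2⟩)
  have c1 : (E.filter (fun e => TR E e)).card ≤ V.card := by
    apply card_le_card_of_injOn (fun e => e.1)
    · intro e he
      rw [mem_coe, mem_filter] at he
      exact h.e1 e he.1
    · intro e he e' he' hee
      rw [mem_coe, mem_filter] at he he'
      simp only at hee
      have hs : sl e = sl e' := le_antisymm (he'.2 e he.1 hee) (he.2 e' he'.1 hee.symm)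
      by_contra hne
      have l1 := h.lt e he.1
      have l2 := h.lt e' he'.1
      have hu : e'.1.1 = e.1.1 := by rw [hee]
      set x := (e.1.1 + min e.2.1 e'.2.1) / 2 with hx
      have m1 := min_le_left e.2.1 e'.2.1
      have m2 := min_le_right e.2.1 e'.2.1
      have m3 : e.1.1 < min e.2.1 e'.2.1 := lt_min l1 (by linarith)
      apply h.nc e he.1 e' he'.1 hne x (by linarith) (by linarith) (by linarith) (by linarith)
      unfold fe
      rw [hs, hee]
  have c2 : (E.filter (fun e => TL E e)).card ≤ V.card := by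
    apply card_le_card_of_injOn (fun e => e.2)
    · intro e he
      rw [mem_coe, mem_filter] at he
      exact h.e2 e he.1
    · intro e he e' he' hee
      rw [mem_coe, mem_filter] at he he'
      simp only at hee
      have hs : sl e = sl e' := le_antisymm (he.2 e' he'.1 hee.symm) (he'.2 e he.1 hee)
      by_contra hne
      have l1 := h.lt e he.1
      have l2 := h.lt e' he'.1
      have hu : e'.2.1 = e.2.1 := by rw [hee]
      set x := (e.2.1 + max e.1.1 e'.1.1) / 2 with hx
      have m1 := le_max_left e.1.1 e'.1.1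
      have m2 := le_max_right e.1.1 e'.1.1
      have m3 : max e.1.1 e'.1.1 < e.2.1 := max_lt l1 (by linarith)
      apply h.nc e he.1 e' he'.1 hne x (by linarith) (by linarith) (by linarith) (by linarith)
      rw [fe_sub e x e.2.1, fe_sub e' x e'.2.1, fe_right l1, fe_right l2, hs, hee]
  have c3 : (E.filter (fun e => ∃ w, BW V E e w)).card ≤ V.card := by
    have hch : ∀ e : Ed, ∃ w : Pt, (∃ w, BW V E e w) → BW V E e w := by
      intro e
      by_cases h1 : ∃ w, BW V E e w
      · obtain ⟨w, hw⟩ := h1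
        exact ⟨w, fun _ => hw⟩
      · exact ⟨(0, 0), fun h2 => absurd h2 h1⟩
    choose g hg using hch
    apply card_le_card_of_injOn g
    · intro e he
      rw [mem_coe, mem_filter] at he
      exact (hg e he.2).1
    · intro e he e' he' hee
      rw [mem_coe, mem_filter] at he he'
      obtain ⟨a1, a2, a3, a4, a5⟩ := hg e he.2
      obtain ⟨b1, b2, b3, b4, b5⟩ := hg e' he'.2
      rw [← hee] at b1 b2 b3 b4 b5
      by_contra hne
      have h1 := h.nc e he.1 e' he'.1 hne (g e).1 a2 a3 b2 b3
      rcases lt_or_gt_of_ne h1 with h2 | h2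
      · have := a5 e' he'.1 b2 b3 h2
        linarith
      · have := b5 e he.1 a2 a3 h2
        linarith
  calc E.card ≤ _ := card_le_card hsub
    _ ≤ _ := card_union_le _ _
    _ ≤ (E.filter (fun e => TR E e)).card + ((E.filter (fun e => TL E e)).card + (E.filter (fun e => ∃ w, BW V E e w)).card) :=
        Nat.add_le_add_left (card_union_le _ _) _
    _ ≤ V.card + (V.card + V.card) := by omega
    _ = 3 * V.card := by ring

end Pool.Agent.Helper624.Gow
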